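import Mathlib
import Pool.Agent.Helper11_PGL.StmtB

/-!
# Squad PGL, modules SPEC and SPECFAM
-/

open PGH Polynomial
open scoped IntermediateField TensorProduct

universe u

namespace PGL.H68

/-- a nontrivial algebra of finite type over an algebraically closed field has a point -/
theorem exists_point (Ω T : Type u) [Field Ω] [IsAlgClosed Ω] [CommRing T] [Nontrivial T]
    [Algebra Ω T] [Algebra.FiniteType Ω T] : Nonempty (T →ₐ[Ω] Ω) := by
  obtain ⟨m, hm⟩ := Ideal.exists_maximal T
  let _ := Ideal.Quotient.field m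
  have : Module.Finite Ω (T ⧸ m) := finite_of_finite_type_of_isJacobsonRing Ω (T ⧸ m)
  exact ⟨(IsAlgClosed.lift : (T ⧸ m) →ₐ[Ω] Ω).comp (Ideal.Quotient.mkₐ Ω m)⟩

theorem transcendental_of_ne {k O : Type u} [Field k] [IsAlgClosed k] [CommRing O] [IsDomain O]
    [Algebra k O] {θ : O} (hθ : ∀ c : k, θ ≠ algebraMap k O c) : Transcendental k θ := by
  intro halg
  have hint : IsIntegral k θ := halg.isIntegral
  have : Algebra.IsIntegral k (Algebra.adjoin k {θ}) :=
    ⟨fun x => by
      have := Algebra.IsIntegral.adjoin (R := k) (S := {θ}) (fun x hx => by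
        rw [Set.mem_singleton_iff] at hx; rw [hx]; exact hint)
      exact this.isIntegral x⟩
  obtain ⟨c, hc⟩ := (IsAlgClosed.algebraMap_bijective_of_isIntegral (k := k)).2
    (⟨θ, Algebra.subset_adjoin rfl⟩ : Algebra.adjoin k {θ})
  exact hθ c (congrArg Subtype.val hc).symm

/-- SPEC -/
theorem spec.{v} (h : VinfStmt.{v}) : SpecStmt.{v} := by
  intro k O _ _ _ _ _ _ _ θ s hθ hs
  obtain ⟨Ω, _, _, _, θ', V, htr, hV, hθV⟩ := h k
  have hθtr : Transcendental k θ := transcendental_of_ne hθ
  let _ : Algebra k[X] O := (aeval θ : k[X] →ₐ[k] O).toAlgebra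
  let _ : Algebra k[X] Ω := (aeval θ' : k[X] →ₐ[k] Ω).toAlgebra
  have t1 : IsScalarTower k k[X] O := IsScalarTower.of_algebraMap_eq fun c => by
    change _ = aeval θ (C c); simp
  have t2 : IsScalarTower k k[X] Ω := IsScalarTower.of_algebraMap_eq fun c => by
    change _ = aeval θ' (C c); simp
  have i1 : Function.Injective (algebraMap k[X] O) := transcendental_iff_injective.mp hθtr
  have i2 : Function.Injective (algebraMap k[X] Ω) := transcendental_iff_injective.mp htr
  have hsle : Submonoid.powers s ≤ nonZeroDivisors O := powers_le_nonZeroDivisors_of_noZeroDivisors hs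
  have i3 : Function.Injective (algebraMap O (Localization.Away s)) :=
    IsLocalization.injective _ hsle
  have f1 : Algebra.FiniteType O (Localization.Away s) :=
    IsLocalization.finiteType_of_monoid_fg (Submonoid.powers s) _
  have f2 : Algebra.FiniteType k (Localization.Away s) :=
    Algebra.FiniteType.trans (S := O) inferInstance f1
  have t3 : IsScalarTower k k[X] (Localization.Away s) := inferInstance
  have f3 : Algebra.FiniteType k[X] (Localization.Away s) :=
    Algebra.FiniteType.of_restrictScalars_finiteType k _ _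
  have f4 : Algebra.FiniteType Ω (Ω ⊗[k[X]] Localization.Away s) := inferInstance
  have tf : Module.IsTorsionFree k[X] Ω := Module.isTorsionFree_iff_algebraMap_injective.mpr i2
  have fl : Module.Flat k[X] Ω := inferInstance
  have i4 : Function.Injective (algebraMap k[X] (Localization.Away s)) := by
    rw [IsScalarTower.algebraMap_eq k[X] O (Localization.Away s)]
    exact i3.comp i1
  have nt : Nontrivial (Ω ⊗[k[X]] Localization.Away s) := by
    have hinj : Function.Injective (LinearMap.lTensor Ω
        (Algebra.linearMap k[X] (Localization.Away s))) :=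
      Module.Flat.lTensor_preserves_injective_linearMap _ i4
    have hn : Nontrivial (Ω ⊗[k[X]] k[X]) := (TensorProduct.rid k[X] Ω).toEquiv.nontrivial
    exact hinj.nontrivial
  obtain ⟨π⟩ := exists_point Ω (Ω ⊗[k[X]] Localization.Away s)
  let g : Localization.Away s →ₐ[k[X]] Ω :=
    (π.restrictScalars k[X]).comp Algebra.TensorProduct.includeRight
  let χ : O →ₐ[k[X]] Ω := g.comp (IsScalarTower.toAlgHom k[X] O (Localization.Away s))
  refine ⟨Ω, inferInstance, inferInstance, inferInstance, χ.restrictScalars k, V, ?_, hV, ?_⟩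
  · change g (algebraMap O (Localization.Away s) s) ≠ 0
    have hu : IsUnit (algebraMap O (Localization.Away s) s) :=
      IsLocalization.Away.algebraMap_isUnit s
    exact (hu.map g).ne_zero
  · have h1 : χ θ = θ' := by
      have h2 : θ = algebraMap k[X] O X := by
        change θ = aeval θ X; simp
      have h3 : θ' = algebraMap k[X] Ω X := by
        change θ' = aeval θ' X; simp
      rw [h3]
      conv_lhs => rw [h2]
      exact χ.commutes X
    change χ θ ∉ V
    rw [h1]
    exact hθV

/-- SPECFAM -/
theorem specFam.{v} (h : SpecStmt.{v}) : SpecFamStmt.{v} := by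
  classical
  intro k O R _ _ _ _ _ _ _ _ _ A₀ F₁ x₀ Ψ hA₀ hF
  obtain ⟨a₁, ha₁, j₁, hj₁⟩ := hF.move
  choose! n α β w hw hne hrat using hF.rat
  -- the denominators
  have hc : ∀ a ∈ A₀, ∃ i : ℕ, PowerSeries.coeff i (∑ l, PowerSeries.C (β a l) *
      PowerSeries.map (algebraMap k O) (w a l)) ≠ 0 := by
    intro a ha
    by_contra hcon
    push Not at hcon
    exact hne a ha (PowerSeries.ext fun i => by simpa using hcon i)
  choose! i hi using hc
  obtain ⟨Ω, _, _, _, χ, V, hs, hV, hθV⟩ := h k O (PowerSeries.coeff j₁ (Ψ a₁))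
    (∏ a ∈ hA₀.toFinset, PowerSeries.coeff (i a) (∑ l, PowerSeries.C (β a l) *
      PowerSeries.map (algebraMap k O) (w a l))) hj₁
    (Finset.prod_ne_zero_iff.mpr fun a ha => hi a (hA₀.mem_toFinset.mp ha))
  have hcomp : χ.toRingHom.comp (algebraMap k O) = algebraMap k Ω := χ.comp_algebraMap
  have hmap : ∀ u : PowerSeries k, PowerSeries.map χ.toRingHom
      (PowerSeries.map (algebraMap k O) u) = PowerSeries.map (algebraMap k Ω) u := by
    intro u
    ext j
    simp only [PowerSeries.coeff_map]
    exact χ.commutes _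
  have hmapC : ∀ b : O, PowerSeries.map χ.toRingHom (PowerSeries.C b) = PowerSeries.C (χ b) := by
    intro b
    simp
  let Ψ' : R →ₐ[k] PowerSeries Ω := (PowerSeries.mapAlgHom χ).comp Ψ
  have hΨ' : ∀ r, Ψ' r = PowerSeries.map χ.toRingHom (Ψ r) := fun r => rfl
  refine ⟨Ω, inferInstance, inferInstance, inferInstance, V, Ψ', hV, ⟨?_, ?_, ?_, ?_⟩,
    a₁, ha₁, j₁, ?_⟩
  · intro r
    rw [hΨ']
    have := hF.const r
    rw [← PowerSeries.coeff_zero_eq_constantCoeff_apply] at this ⊢
    rw [PowerSeries.coeff_map, this]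
    exact χ.commutes _
  · intro t ht
    obtain ⟨u, hu⟩ := hF.base t ht
    exact ⟨u, by rw [hΨ', hu, hmap]⟩
  · intro a ha
    refine ⟨n a, fun l => χ (α a l), fun l => χ (β a l), w a, hw a ha, ?_, ?_⟩
    · intro h0
      have h1 : PowerSeries.map χ.toRingHom (∑ l, PowerSeries.C (β a l) *
          PowerSeries.map (algebraMap k O) (w a l)) = 0 := by
        rw [map_sum, ← h0]
        refine Finset.sum_congr rfl fun l _ => ?_
        rw [map_mul, hmapC, hmap]
      have h2 : χ (PowerSeries.coeff (i a) (∑ l, PowerSeries.C (β a l) *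
          PowerSeries.map (algebraMap k O) (w a l))) = 0 := by
        have := congrArg (PowerSeries.coeff (i a)) h1
        rw [PowerSeries.coeff_map] at this
        simpa using this
      apply hs
      rw [map_prod]
      exact Finset.prod_eq_zero (hA₀.mem_toFinset.mpr ha) h2
    · have h1 := congrArg (PowerSeries.map χ.toRingHom) (hrat a ha)
      rw [map_mul, map_sum, map_sum] at h1
      simp only [map_mul, hmapC, hmap] at h1
      exact h1
  · refine ⟨a₁, ha₁, j₁, fun c hc => hθV ?_⟩
    have : PowerSeries.coeff j₁ (Ψ' a₁) = χ (PowerSeries.coeff j₁ (Ψ a₁)) := by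
      rw [hΨ', PowerSeries.coeff_map]; rfl
    rw [← this, hc]
    exact hV.const c
  · have : PowerSeries.coeff j₁ (Ψ' a₁) = χ (PowerSeries.coeff j₁ (Ψ a₁)) := by
      rw [hΨ', PowerSeries.coeff_map]; rfl
    rw [this]
    exact hθV

end PGL.H68
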